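import Mathlib

/-!
# Primary pseudoperfect numbers: the sum of the complementary products modulo 8 and its Jacobi
symbol
-/

set_option autoImplicit false

namespace Pool.Agent.Helper99.PPN

open Finset
open scoped NumberTheorySymbols

/-- The sum over `p ∈ P` of the product of the other elements of `P`. -/
def dd (P : Finset ℕ) : ℕ := ∑ p ∈ P, ∏ q ∈ P.erase p, q

lemma dd_empty : dd ∅ = 0 := by simp [dd]

lemma dd_insert {P : Finset ℕ} {q : ℕ} (hq : q ∉ P) :
    dd (insert q P) = q * dd P + ∏ p ∈ P, p := by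
  unfold dd
  rw [Finset.sum_insert hq, Finset.erase_insert hq, Finset.mul_sum, add_comm]
  congr 1
  refine Finset.sum_congr rfl fun p hp => ?_
  have hne : q ≠ p := fun h => hq (h ▸ hp)
  rw [Finset.erase_insert_of_ne hne, Finset.prod_insert]
  exact fun h => hq (Finset.mem_of_mem_erase h)

lemma choose_two_mod (t : ℕ) : (t % 4 = 0 ∧ t.choose 2 % 2 = 0) ∨
    (t % 4 = 1 ∧ t.choose 2 % 2 = 0) ∨ (t % 4 = 2 ∧ t.choose 2 % 2 = 1) ∨
    (t % 4 = 3 ∧ t.choose 2 % 2 = 1) := by
  induction t with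
  | zero => simp
  | succ n ih =>
    have h : (n + 1).choose 2 = n + n.choose 2 := by
      rw [Nat.choose_succ_succ' n 1, Nat.choose_one_right]
    rw [h]
    omega

/-- The invariants of a set of odd primes. -/
lemma key (P : Finset ℕ) : (∀ p ∈ P, p.Prime ∧ p ≠ 2) → ∃ c1 c3 c5 c7 : ℕ,
    P.card = c1 + c3 + c5 + c7 ∧ (P.filter fun p => p % 4 = 1).card = c1 + c5 ∧
    ((∏ p ∈ P, p) % 4 = 1 ∧ (c3 + c7) % 2 = 0 ∨ (∏ p ∈ P, p) % 4 = 3 ∧ (c3 + c7) % 2 = 1) ∧
    (((∏ p ∈ P, p) % 8 = 1 ∨ (∏ p ∈ P, p) % 8 = 7) ∧ (c3 + c5) % 2 = 0 ∨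
      ((∏ p ∈ P, p) % 8 = 3 ∨ (∏ p ∈ P, p) % 8 = 5) ∧ (c3 + c5) % 2 = 1) ∧
    dd P % 8 = ((∏ p ∈ P, p) * (c1 + 3 * c3 + 5 * c5 + 7 * c7)) % 8 ∧
    J((dd P : ℤ) | ∏ p ∈ P, p) = (-1) ^ ((c3 + c7).choose 2) := by
  induction P using Finset.induction_on with
  | empty =>
    intro _
    refine ⟨0, 0, 0, 0, ?_⟩
    simp [dd_empty]
  | insert q P hq ih =>
    intro h
    obtain ⟨c1, c3, c5, c7, h1, h2, h3, h4, h5, h6⟩ :=
      ih fun p hp => h p (Finset.mem_insert_of_mem hp)
    obtain ⟨hqp, hq2⟩ := h q (Finset.mem_insert_self q P)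
    have hcop : Nat.Coprime (∏ p ∈ P, p) q := by
      refine Nat.Coprime.prod_left fun p hp => ?_
      exact (Nat.coprime_primes (h p (Finset.mem_insert_of_mem hp)).1 hqp).2
        fun e => hq (e ▸ hp)
    have hqodd : q % 2 = 1 := (hqp.eq_two_or_odd).resolve_left hq2
    rw [dd_insert hq, Finset.prod_insert hq, Finset.card_insert_of_notMem hq,
      Finset.filter_insert]
    set n : ℕ := ∏ p ∈ P, p with hn
    set d : ℕ := dd P with hd
    have hnodd : n % 2 = 1 := by omega
    have : NeZero n := ⟨by omega⟩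
    have : NeZero q := ⟨by omega⟩
    have hj : J(((q * d + n : ℕ) : ℤ) | q * n) = (-1) ^ (n / 2 * (q / 2)) * J((d : ℤ) | n) := by
      rw [jacobiSym.mul_right]
      have e1 : J(((q * d + n : ℕ) : ℤ) | q) = J((n : ℤ) | q) := by
        refine jacobiSym.mod_left' ?_
        push_cast
        rw [add_comm, Int.add_mul_emod_self_left]
      have e2 : J(((q * d + n : ℕ) : ℤ) | n) = J((q : ℤ) | n) * J((d : ℤ) | n) := by
        rw [← jacobiSym.mul_left]
        refine jacobiSym.mod_left' ?_
        push_cast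
        exact Int.add_emod_right _ _
      have e3 : J((n : ℤ) | q) = (-1) ^ (n / 2 * (q / 2)) * J((q : ℤ) | n) :=
        jacobiSym.quadratic_reciprocity (Nat.odd_iff.2 hnodd) (Nat.odd_iff.2 hqodd)
      have e4 : J((q : ℤ) | n) * J((q : ℤ) | n) = 1 := by
        have hc : Int.gcd (q : ℤ) n = 1 := by
          rw [Int.gcd_natCast_natCast]
          exact hcop.symm
        have := jacobiSym.sq_one hc
        rw [sq] at this
        exact this
      rw [e1, e2, e3]
      calc (-1) ^ (n / 2 * (q / 2)) * J((q : ℤ) | n) * (J((q : ℤ) | n) * J((d : ℤ) | n)) =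
          (-1) ^ (n / 2 * (q / 2)) * (J((q : ℤ) | n) * J((q : ℤ) | n)) * J((d : ℤ) | n) := by ring
        _ = _ := by rw [e4, mul_one]
    have hdd : ∀ s : ℕ, d % 8 = (n * s) % 8 → (q * d + n) % 8 = (q * n * (s + q)) % 8 := by
      intro s hs
      have hqq : (q * q) % 8 = 1 := by
        have : q % 8 = 1 ∨ q % 8 = 3 ∨ q % 8 = 5 ∨ q % 8 = 7 := by omega
        rcases this with e | e | e | e <;> rw [Nat.mul_mod, e]
      have e1 : (q * d + n) ≡ q * (n * s) + (q * q) * n [MOD 8] := by
        refine Nat.ModEq.add (Nat.ModEq.mul_left _ hs) ?_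
        have : (q * q) * n ≡ 1 * n [MOD 8] := Nat.ModEq.mul_right _ hqq
        rw [one_mul] at this
        exact this.symm
      have e2 : q * (n * s) + (q * q) * n = q * n * (s + q) := by ring
      rw [e2] at e1
      exact e1
    have hch : (c3 + c7 + 1).choose 2 = (c3 + c7) + (c3 + c7).choose 2 := by
      rw [Nat.choose_succ_succ' _ 1, Nat.choose_one_right]
    have hq8 : q % 8 = 1 ∨ q % 8 = 3 ∨ q % 8 = 5 ∨ q % 8 = 7 := by omega
    have hn8 : n % 8 = 1 ∨ n % 8 = 3 ∨ n % 8 = 5 ∨ n % 8 = 7 := by omega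
    have hqn4 : (q * n) % 4 = ((q % 4) * (n % 4)) % 4 := Nat.mul_mod _ _ _
    have hqn8 : (q * n) % 8 = ((q % 8) * (n % 8)) % 8 := Nat.mul_mod _ _ _
    have hDs := hdd _ h5
    have hsign : ∀ k l : ℕ, k % 2 = l % 2 → ((-1 : ℤ)) ^ k = (-1) ^ l := by
      intro k l hkl
      rw [neg_one_pow_eq_pow_mod_two, hkl, ← neg_one_pow_eq_pow_mod_two]
    rcases hq8 with hq8 | hq8 | hq8 | hq8
    · refine ⟨c1 + 1, c3, c5, c7, by omega, ?_, ?_, ?_, ?_, ?_⟩
      · rw [if_pos (by omega), Finset.card_insert_of_notMem (by simp [hq]), h2]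
        omega
      · rcases hn8 with e | e | e | e <;> rw [hqn4] <;>
          (have : q % 4 = 1 := by omega) <;> rw [this] <;> omega
      · rcases hn8 with e | e | e | e <;> rw [hqn8, hq8, e] <;> omega
      · refine hDs.trans ?_
        exact Nat.ModEq.mul_left _ (by
          show (_ % 8 = _ % 8)
          omega)
      · rw [hj, h6, ← pow_add]
        refine hsign _ _ ?_
        have : (n / 2 * (q / 2)) % 2 = 0 := by
          rw [Nat.mul_mod, show (q / 2) % 2 = 0 by omega]
          simp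
        omega
    · refine ⟨c1, c3 + 1, c5, c7, by omega, ?_, ?_, ?_, ?_, ?_⟩
      · rw [if_neg (by omega), h2]
      · rcases hn8 with e | e | e | e <;> rw [hqn4] <;>
          (have : q % 4 = 3 := by omega) <;> rw [this] <;> omega
      · rcases hn8 with e | e | e | e <;> rw [hqn8, hq8, e] <;> omega
      · refine hDs.trans ?_
        exact Nat.ModEq.mul_left _ (by
          show (_ % 8 = _ % 8)
          omega)
      · rw [hj, h6, ← pow_add]
        refine hsign _ _ ?_
        have e0 : (c3 + 1 + c7) = c3 + c7 + 1 := by ring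
        rw [e0, hch]
        have : (n / 2 * (q / 2)) % 2 = (n / 2) % 2 := by
          rw [Nat.mul_mod, show (q / 2) % 2 = 1 by omega]
          omega
        omega
    · refine ⟨c1, c3, c5 + 1, c7, by omega, ?_, ?_, ?_, ?_, ?_⟩
      · rw [if_pos (by omega), Finset.card_insert_of_notMem (by simp [hq]), h2]
        omega
      · rcases hn8 with e | e | e | e <;> rw [hqn4] <;>
          (have : q % 4 = 1 := by omega) <;> rw [this] <;> omega
      · rcases hn8 with e | e | e | e <;> rw [hqn8, hq8, e] <;> omega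
      · refine hDs.trans ?_
        exact Nat.ModEq.mul_left _ (by
          show (_ % 8 = _ % 8)
          omega)
      · rw [hj, h6, ← pow_add]
        refine hsign _ _ ?_
        have : (n / 2 * (q / 2)) % 2 = 0 := by
          rw [Nat.mul_mod, show (q / 2) % 2 = 0 by omega]
          simp
        omega
    · refine ⟨c1, c3, c5, c7 + 1, by omega, ?_, ?_, ?_, ?_, ?_⟩
      · rw [if_neg (by omega), h2]
      · rcases hn8 with e | e | e | e <;> rw [hqn4] <;>
          (have : q % 4 = 3 := by omega) <;> rw [this] <;> omega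
      · rcases hn8 with e | e | e | e <;> rw [hqn8, hq8, e] <;> omega
      · refine hDs.trans ?_
        exact Nat.ModEq.mul_left _ (by
          show (_ % 8 = _ % 8)
          omega)
      · rw [hj, h6, ← pow_add]
        refine hsign _ _ ?_
        have e0 : (c3 + (c7 + 1)) = c3 + c7 + 1 := by ring
        rw [e0, hch]
        have : (n / 2 * (q / 2)) % 2 = (n / 2) % 2 := by
          rw [Nat.mul_mod, show (q / 2) % 2 = 1 by omega]
          omega
        omega

end Pool.Agent.Helper99.PPN
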