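import Mathlib
import Pool.Agent.Helper99.PPN.Basic

/-!
# Primary pseudoperfect numbers: the congruences
-/

set_option autoImplicit false

namespace Pool.Agent.Helper99.PPN

open Finset
open scoped NumberTheorySymbols

lemma sum_inv {P : Finset ℕ} (hP : ∀ p ∈ P, p.Prime) :
    ∑ p ∈ P, (1 : ℚ) / p = (dd P : ℚ) / ((∏ p ∈ P, p : ℕ) : ℚ) := by
  have h0 : ∀ p ∈ P, (p : ℚ) ≠ 0 := fun p hp => by exact_mod_cast (hP p hp).ne_zero
  have hM : ((∏ p ∈ P, p : ℕ) : ℚ) ≠ 0 := by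
    push_cast
    exact Finset.prod_ne_zero_iff.2 h0
  rw [eq_div_iff hM, Finset.sum_mul, dd]
  push_cast
  refine Finset.sum_congr rfl fun p hp => ?_
  rw [← Finset.mul_prod_erase P (fun p => (p : ℚ)) hp]
  field_simp [h0 p hp]

lemma coprime_dd (P : Finset ℕ) : (∀ p ∈ P, p.Prime) → Nat.Coprime (dd P) (∏ p ∈ P, p) := by
  induction P using Finset.induction_on with
  | empty => intro _; simp
  | insert q P hq ih =>
    intro h
    have hc := ih fun p hp => h p (Finset.mem_insert_of_mem hp)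
    have hqp := h q (Finset.mem_insert_self q P)
    have hcop : Nat.Coprime (∏ p ∈ P, p) q := by
      refine Nat.Coprime.prod_left fun p hp => ?_
      exact (Nat.coprime_primes (h p (Finset.mem_insert_of_mem hp)) hqp).2
        fun e => hq (e ▸ hp)
    rw [dd_insert hq, Finset.prod_insert hq]
    refine Nat.Coprime.mul_right ?_ ?_
    · rw [add_comm]
      exact (Nat.coprime_add_mul_left_left _ _ _).2 hcop
    · rw [Nat.coprime_add_self_left]
      exact Nat.Coprime.mul_left hcop.symm hc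

/-- The equation in integers. -/
lemma eqn {m : ℕ} {P : Finset ℕ} (hm : 2 ≤ m) (hP : ∀ p ∈ P, p.Prime)
    (h : ∑ p ∈ P, (1 : ℚ) / p = 1 - 1 / (m : ℚ)) :
    m = ∏ p ∈ P, p ∧ dd P + 1 = ∏ p ∈ P, p := by
  rw [sum_inv hP] at h
  have hM : (∏ p ∈ P, p : ℕ) ≠ 0 := Finset.prod_ne_zero_iff.2 fun p hp => (hP p hp).ne_zero
  have hc := coprime_dd P hP
  set M : ℕ := ∏ p ∈ P, p
  set d : ℕ := dd P
  have hm0 : (m : ℚ) ≠ 0 := by
    have : m ≠ 0 := by omega
    exact_mod_cast this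
  have hM0 : (M : ℚ) ≠ 0 := by exact_mod_cast hM
  have h1 : d * m + M = M * m := by
    have h2 : (d : ℚ) * m + M = M * m := by
      field_simp at h
      linarith
    exact_mod_cast h2
  have h3 : m ∣ M := by
    have : m ∣ d * m + M := h1 ▸ Dvd.intro_left M rfl
    exact (Nat.dvd_add_right (Dvd.intro_left d rfl)).1 this
  have h4 : M ∣ m := by
    have h5 : M ∣ d * m + M := h1 ▸ Dvd.intro m rfl
    have h6 : M ∣ d * m := (Nat.dvd_add_left (dvd_refl M)).1 h5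
    exact hc.symm.dvd_of_dvd_mul_left h6
  have h5 : m = M := Nat.dvd_antisymm h3 h4
  refine ⟨h5, ?_⟩
  rw [h5] at h1
  have h6 : (d + 1) * M = M * M := by rw [← h1]; ring
  exact Nat.eq_of_mul_eq_mul_right (Nat.pos_of_ne_zero hM) h6

lemma sign_cases (k : ℕ) (hk : k % 2 = 0 ∨ k % 2 = 1) :
    (k % 2 = 0 ∧ ((-1 : ℤ)) ^ k = 1) ∨ (k % 2 = 1 ∧ ((-1 : ℤ)) ^ k = -1) := by
  rcases hk with h | h
  · exact Or.inl ⟨h, Even.neg_one_pow (Nat.even_iff.2 h)⟩
  · exact Or.inr ⟨h, Odd.neg_one_pow (Nat.odd_iff.2 h)⟩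

/-- The case of odd primes `Q` with `2 * dd Q + 1 = ∏ Q`. -/
lemma even_case {Q : Finset ℕ} (hQ : ∀ p ∈ Q, p.Prime ∧ p ≠ 2)
    (h : 2 * dd Q + 1 = ∏ p ∈ Q, p) :
    dd Q % 8 = Q.card % 8 ∧ (Q.filter fun p => p % 4 = 1).card % 4 = 0 := by
  obtain ⟨c1, c3, c5, c7, h1, h2, h3, h4, h5, h6⟩ := key Q hQ
  set n : ℕ := ∏ p ∈ Q, p
  set d : ℕ := dd Q
  have hodd : Odd n := Nat.odd_iff.2 (by omega)
  have hJ : J(2 | n) * J((d : ℤ) | n) = J(-1 | n) := by
    rw [← jacobiSym.mul_left]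
    refine jacobiSym.mod_left' ?_
    have : (2 * (d : ℤ)) = -1 + n := by
      have : ((2 * d + 1 : ℕ) : ℤ) = n := by rw [h]
      push_cast at this
      linarith
    rw [this, Int.add_emod_right]
  rw [h6, jacobiSym.at_two hodd, jacobiSym.at_neg_one hodd, ZMod.χ₈_nat_eq_if_mod_eight,
    ZMod.χ₄_nat_eq_if_mod_four] at hJ
  rw [Nat.mul_mod] at h5
  have hn8 : n % 8 = 1 ∨ n % 8 = 3 ∨ n % 8 = 5 ∨ n % 8 = 7 := by omega
  have hn2 : n % 2 ≠ 0 := by omega
  have hc := choose_two_mod (c3 + c7)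
  rcases sign_cases ((c3 + c7).choose 2) (by omega) with ⟨hs, hs'⟩ | ⟨hs, hs'⟩ <;>
    rcases hn8 with e | e | e | e <;> rw [e] at h5 <;> rw [hs'] at hJ
  · omega
  · rw [if_neg hn2, if_neg (by omega), if_neg hn2, if_neg (by omega)] at hJ
    omega
  · rw [if_neg hn2, if_neg (by omega), if_neg hn2, if_pos (by omega)] at hJ
    omega
  · rw [if_neg hn2, if_pos (by omega), if_neg hn2, if_neg (by omega)] at hJ
    omega
  · rw [if_neg hn2, if_pos (by omega), if_neg hn2, if_pos (by omega)] at hJ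
    omega
  · rw [if_neg hn2, if_neg (by omega), if_neg hn2, if_neg (by omega)] at hJ
    omega
  · rw [if_neg hn2, if_neg (by omega), if_neg hn2, if_pos (by omega)] at hJ
    omega
  · rw [if_neg hn2, if_pos (by omega), if_neg hn2, if_neg (by omega)] at hJ
    omega

/-- The case of odd primes `Q` with `dd Q + 1 = ∏ Q`. -/
lemma odd_case {Q : Finset ℕ} (hQ : ∀ p ∈ Q, p.Prime ∧ p ≠ 2)
    (h : dd Q + 1 = ∏ p ∈ Q, p) :
    Q.card % 8 = 0 := by
  obtain ⟨c1, c3, c5, c7, h1, h2, h3, h4, h5, h6⟩ := key Q hQ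
  set n : ℕ := ∏ p ∈ Q, p
  set d : ℕ := dd Q
  have hodd : Odd n := Nat.odd_iff.2 (by omega)
  have hJ : J((d : ℤ) | n) = J(-1 | n) := by
    refine jacobiSym.mod_left' ?_
    have : (d : ℤ) = -1 + n := by
      have : ((d + 1 : ℕ) : ℤ) = n := by rw [h]
      push_cast at this
      linarith
    rw [this, Int.add_emod_right]
  rw [h6, jacobiSym.at_neg_one hodd, ZMod.χ₄_nat_eq_if_mod_four] at hJ
  rw [Nat.mul_mod] at h5
  have hn8 : n % 8 = 1 ∨ n % 8 = 3 ∨ n % 8 = 5 ∨ n % 8 = 7 := by omega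
  have hn2 : n % 2 ≠ 0 := by omega
  have hc := choose_two_mod (c3 + c7)
  rcases sign_cases ((c3 + c7).choose 2) (by omega) with ⟨hs, hs'⟩ | ⟨hs, hs'⟩ <;>
    rcases hn8 with e | e | e | e <;> rw [e] at h5 <;> rw [hs'] at hJ
  · omega
  · rw [if_neg hn2, if_neg (by omega)] at hJ
    omega
  · omega
  · rw [if_neg hn2, if_neg (by omega)] at hJ
    omega
  · rw [if_neg hn2, if_pos (by omega)] at hJ
    omega
  · omega
  · rw [if_neg hn2, if_pos (by omega)] at hJ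
    omega
  · omega

end Pool.Agent.Helper99.PPN
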